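import Mathlib
import Pool.Agent.Lib.MP_b879c5_an.BlowUp

/-!
MP_b879c5_an: lower bounds for every blow-up: the `H¹` norm and the mean grow at least like
`c/(T-t)`, and the limit superior of `(T-t) max u` is at least `1/2`.
-/

set_option autoImplicit false

namespace Pool.Agent.Results.MP_b879c5_an.BlowUpLowerBound

open Set MeasureTheory Pool.Agent.Lib.MP_b879c5_an
open scoped Topology ContDiff

/-- `u` (first argument time, second argument space) is a classical (smooth) real solution on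
`(0,T) × ℝ`, `2π`-periodic in space, of `u_t = u_xxx + (u_x)^2 + u^2`. -/
def IsClassicalSolution (T : ℝ) (u : ℝ → ℝ → ℝ) : Prop :=
  ContDiffOn ℝ ∞ (fun p : ℝ × ℝ => u p.1 p.2) (Ioo 0 T ×ˢ univ) ∧
  (∀ t ∈ Ioo 0 T, ∀ x, u t (x + 2 * Real.pi) = u t x) ∧
  (∀ t ∈ Ioo 0 T, ∀ x,
    deriv (fun s => u s x) t = iteratedDeriv 3 (u t) x + (deriv (u t) x) ^ 2 + (u t x) ^ 2)

/-- The `H¹` norm of `u(·,t)` over one period. -/
noncomputable def H1norm (u : ℝ → ℝ → ℝ) (t : ℝ) : ℝ :=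
  Real.sqrt (∫ x in (0)..(2 * Real.pi), ((u t x) ^ 2 + (deriv (u t) x) ^ 2))

lemma toSol {T : ℝ} {u : ℝ → ℝ → ℝ} (h : IsClassicalSolution T u) :
    Sol T (fun p : ℝ × ℝ => u p.1 p.2) := by
  obtain ⟨hsm, hper, hpde⟩ := h
  have hS : Sm T (fun p : ℝ × ℝ => u p.1 p.2) := hsm
  refine ⟨hS, hper, ?_⟩
  intro t ht x
  have h1 : deriv (u t) = fun y => Dx (fun p : ℝ × ℝ => u p.1 p.2) (t, y) := by
    funext y; exact (hS.hasDerivAt_x ht y).deriv
  have h2 : deriv (deriv (u t)) = fun y => Dx (Dx (fun p : ℝ × ℝ => u p.1 p.2)) (t, y) := by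
    rw [h1]; funext y; exact (hS.dx.hasDerivAt_x ht y).deriv
  have h3 : deriv (deriv (deriv (u t)))
      = fun y => Dx (Dx (Dx (fun p : ℝ × ℝ => u p.1 p.2))) (t, y) := by
    rw [h2]; funext y; exact (hS.dx.dx.hasDerivAt_x ht y).deriv
  have h4 := hpde t ht x
  have h5 : deriv (fun s => u s x) t = Dt (fun p : ℝ × ℝ => u p.1 p.2) (t, x) :=
    (hS.hasDerivAt_t ht x).deriv
  have h6 : iteratedDeriv 3 (u t) = deriv (deriv (deriv (u t))) := by
    rw [iteratedDeriv_succ, iteratedDeriv_succ, iteratedDeriv_one]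
  rw [h5, h6, h3, h1] at h4
  exact h4

lemma H1norm_eq {T : ℝ} {u : ℝ → ℝ → ℝ} (h : IsClassicalSolution T u) {t : ℝ}
    (ht : t ∈ Ioo 0 T) : H1norm u t = Real.sqrt (II (fun p : ℝ × ℝ => u p.1 p.2) t
      + JI (fun p : ℝ × ℝ => u p.1 p.2) t) := by
  have hS := toSol h
  have h1 : deriv (u t) = fun y => Dx (fun p : ℝ × ℝ => u p.1 p.2) (t, y) := by
    funext y; exact (hS.sm.hasDerivAt_x ht y).deriv
  have hc0 := hS.sm.continuous_x ht
  have hc1 := hS.sm.dx.continuous_x ht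
  have i1 : IntervalIntegrable (fun x => (Dx (fun p : ℝ × ℝ => u p.1 p.2) (t, x)) ^ 2)
      volume 0 (2 * Real.pi) := (hc1.pow 2).intervalIntegrable _ _
  have i0 : IntervalIntegrable (fun x => (u t x) ^ 2) volume 0 (2 * Real.pi) :=
    (hc0.pow 2).intervalIntegrable _ _
  unfold H1norm II JI
  rw [h1, intervalIntegral.integral_add i0 i1, add_comm]


/-- There is a universal constant `c > 0` such that for every `T > 0` and every classical
`2π`-periodic solution `u` of `u_t = u_xxx + (u_x)^2 + u^2` on `(0,T) × ℝ` which is unbounded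
near time `T`: the `H¹` norm of `u(·,t)` is at least `c/(T-t)` on `(0,T)`, the integral of
`u(·,t)` over a period is at least `c/(T-t) - 13/T` on `[T/2,T)`, and for every `q < 1/2` there
are times `t` arbitrarily close to `T` at which `(T-t) u(x,t) > q` for some `x`. -/
theorem result : ∃ c : ℝ, 0 < c ∧
    ∀ (T : ℝ) (u : ℝ → ℝ → ℝ), 0 < T → IsClassicalSolution T u →
      (∀ M : ℝ, ∃ᶠ t in 𝓝[<] T, ∃ x, M < |u t x|) →
        (∀ t ∈ Ioo 0 T, c / (T - t) ≤ H1norm u t) ∧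
        (∀ t ∈ Ico (T / 2) T, c / (T - t) - 13 / T ≤ ∫ x in (0)..(2 * Real.pi), u t x) ∧
        (∀ q < 1 / 2, ∃ᶠ t in 𝓝[<] T, ∃ x, q < (T - t) * u t x) := by
  refine ⟨1 / 81, by norm_num, ?_⟩
  intro T u hT hu hblow
  have hS := toSol hu
  have hb : Blow T (fun p : ℝ × ℝ => u p.1 p.2) := by
    intro M t₀ ht₀
    have h1 := hblow M
    have h2 : Ioo (max t₀ 0) T ∈ 𝓝[<] T := Ioo_mem_nhdsLT (max_lt ht₀ hT)
    obtain ⟨s, ⟨hx, hs⟩⟩ := (h1.and_eventually h2).exists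
    exact ⟨s, ⟨(le_max_right _ _).trans_lt hs.1, hs.2⟩, (le_max_left _ _).trans_lt hs.1, hx⟩
  refine ⟨?_, ?_, ?_⟩
  · intro t ht
    have hTt : 0 < T - t := by linarith [ht.2]
    have h1 := hS.lower hb ht
    rw [H1norm_eq hu ht, div_le_iff₀ hTt]
    linarith
  · intro t ht
    exact hS.mean_lower hb ⟨by linarith [ht.1], ht.2⟩ ht.1
  · intro q hq
    rw [frequently_nhdsWithin_iff]
    rw [(nhds_basis_Ioo T).frequently_iff]
    rintro ⟨a, b⟩ ⟨ha, hb'⟩
    obtain ⟨t, ht, hat, x, hx⟩ := hS.limsup_max hT hb (q := max q (1 / 4))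
      (by positivity) (max_lt hq (by norm_num)) ha
    exact ⟨t, ⟨hat, ht.2.trans hb'⟩, ⟨x, (le_max_left _ _).trans_lt hx⟩, ht.2⟩

end Pool.Agent.Results.MP_b879c5_an.BlowUpLowerBound
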