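import Mathlib
import Pool.Agent.Lib.MP_b879c5_an.BlowUp
import Pool.Agent.Lib.MP_b879c5_an.PR.All
import Pool.Agent.Lib.MP_b879c5_an.WP.All
import Pool.Agent.Lib.MP_b879c5_an.WQ.All
import Pool.Agent.Lib.MP_b879c5_an.WH.All

/-!
MP_b879c5_an: a trichotomy for all blow-up solutions; the third case occurs: the localized pattern is not universal; blow-up for
data near the pattern.
-/

set_option autoImplicit false

namespace Pool.Agent.Results.MP_b879c5_an.BlowUpProfiles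

open Set MeasureTheory Filter Pool.Agent.Lib.MP_b879c5_an
open scoped Topology ContDiff

/-- `u` (first argument time, second argument space) is a classical (smooth) real solution on
`(a,b) × ℝ`, `2π`-periodic in space, of `u_t = u_xxx + (u_x)^2 + u^2`. -/
def IsSolutionOn (a b : ℝ) (u : ℝ → ℝ → ℝ) : Prop :=
  ContDiffOn ℝ ∞ (fun p : ℝ × ℝ => u p.1 p.2) (Ioo a b ×ˢ univ) ∧
  (∀ t ∈ Ioo a b, ∀ x, u t (x + 2 * Real.pi) = u t x) ∧
  (∀ t ∈ Ioo a b, ∀ x,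
    deriv (fun s => u s x) t = iteratedDeriv 3 (u t) x + (deriv (u t) x) ^ 2 + (u t x) ^ 2)

/-- `u` is unbounded near time `T`. -/
def UnboundedNear (T : ℝ) (u : ℝ → ℝ → ℝ) : Prop :=
  ∀ M : ℝ, ∃ᶠ t in 𝓝[<] T, ∃ x, M < |u t x|

/-- `sup_x |u(x,t)| → ∞` as `t → T`. -/
def BlowsUpAt (T : ℝ) (u : ℝ → ℝ → ℝ) : Prop :=
  ∀ M : ℝ, ∀ᶠ t in 𝓝[<] T, ∃ x, M < |u t x|

/-- The square of the `H^{1/2}` seminorm of a smooth `2π`-periodic function `p`, in difference (Gagliardo)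
form: `∫_{-π}^{π} ∫_0^{2π} |p(y+s) - p(y)|^2 / s^2 dy ds`; it is comparable with `∑ |n| |p̂(n)|^2`. -/
noncomputable def halfSemi (p : ℝ → ℝ) : ℝ :=
  ∫ s in (-Real.pi)..Real.pi, (∫ y in (0)..(2 * Real.pi), (p (y + s) - p y) ^ 2) / s ^ 2

/-- There is `a(t)` such that `(T-t) u(x,t) - cos²((x - a(t))/2)` tends to `0` uniformly in `x` and in `H¹` as
`t → T`. -/
def FollowsPattern (T : ℝ) (u : ℝ → ℝ → ℝ) : Prop :=
  ∃ a : ℝ → ℝ,
    (∀ η > 0, ∀ᶠ t in 𝓝[<] T, ∀ x, |(T - t) * u t x - Real.cos ((x - a t) / 2) ^ 2| ≤ η) ∧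
    ∀ η > 0, ∀ᶠ t in 𝓝[<] T, (∫ x in (0)..(2 * Real.pi),
      ((T - t) * deriv (u t) x - deriv (fun y => Real.cos ((y - a t) / 2) ^ 2) x) ^ 2) ≤ η

/-- The rescaled `H^{3/2}` seminorm is unbounded as `t → T`, and the limit inferior of `min_x (T-t) u(x,t)` is at
most `1/2`. -/
def LosesRegularity (T : ℝ) (u : ℝ → ℝ → ℝ) : Prop :=
  (∀ C, ∃ᶠ t in 𝓝[<] T, C < (T - t) ^ 2 * halfSemi (deriv (u t))) ∧
    ∀ δ > 0, ∃ᶠ t in 𝓝[<] T, ∃ x, (T - t) * u t x < 1 / 2 + δ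

/-- `u` is the maximal classical solution with initial value `u₀`, and it blows up at the finite time `T > 0`. -/
def MaximalBlowUp (T : ℝ) (u₀ : ℝ → ℝ) (u : ℝ → ℝ → ℝ) : Prop :=
  0 < T ∧ (∃ δ > 0, IsSolutionOn (-δ) T u) ∧ (∀ x, u 0 x = u₀ x) ∧ BlowsUpAt T u ∧
  ∀ (T' δ' : ℝ) (v : ℝ → ℝ → ℝ), 0 < T' → 0 < δ' → IsSolutionOn (-δ') T' v → (∀ x, v 0 x = u₀ x) →
    T' ≤ T ∧ ∀ t ∈ Ico 0 T', ∀ x, v t x = u t x

lemma deriv_cosSq (b x : ℝ) : deriv (fun y => Real.cos ((y - b) / 2) ^ 2) x = -(Real.sin (x - b) / 2) := by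
  have e2 : HasDerivAt (fun y => (y - b) / 2) (1 / 2) x := by
    simpa using ((hasDerivAt_id x).sub_const b).div_const 2
  have e3 := ((Real.hasDerivAt_cos ((x - b) / 2)).comp x e2).pow 2
  have e4 : Real.sin (x - b) = 2 * Real.sin ((x - b) / 2) * Real.cos ((x - b) / 2) := by
    rw [← Real.sin_two_mul]; congr 1; ring
  have e5 : deriv (fun y => Real.cos ((y - b) / 2) ^ 2) x = _ := e3.deriv
  rw [e5, e4]
  simp only [Function.comp]
  push_cast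
  ring

lemma toBlow {T : ℝ} {u : ℝ → ℝ → ℝ} (hT : 0 < T) (hblow : UnboundedNear T u) :
    Blow T (fun p : ℝ × ℝ => u p.1 p.2) := by
  intro M t₀ ht₀
  have h1 := hblow M
  have h2 : Ioo (max t₀ 0) T ∈ 𝓝[<] T := Ioo_mem_nhdsLT (max_lt ht₀ hT)
  obtain ⟨s, ⟨hx, hs⟩⟩ := (h1.and_eventually h2).exists
  exact ⟨s, ⟨(le_max_right _ _).trans_lt hs.1, hs.2⟩, (le_max_left _ _).trans_lt hs.1, hx⟩

lemma blowsUpAt {T : ℝ} {u : ℝ → ℝ → ℝ} (hT : 0 < T) (hu : IsSolutionOn 0 T u) (hblow : UnboundedNear T u) :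
    BlowsUpAt T u := by
  intro M
  have hS : Sol T (fun p : ℝ × ℝ => u p.1 p.2) := Pool.Agent.Lib.MPb879c5.WP.AsmM.toSol0 hu
  have hb := toBlow hT hblow
  have hK : 0 < 2 * Real.pi * |M| + 13 / T + 1 := by positivity
  set K := 2 * Real.pi * |M| + 13 / T + 1 with hKdef
  have hmem : Ioo (max (T / 2) (T - (1 / 81) / K)) T ∈ 𝓝[<] T := by
    refine Ioo_mem_nhdsLT (max_lt (by linarith) ?_)
    have : 0 < (1 / 81) / K := by positivity
    linarith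
  filter_upwards [hmem] with t ht
  have h1 : T / 2 < t := (le_max_left _ _).trans_lt ht.1
  have h2 : T - (1 / 81) / K < t := (le_max_right _ _).trans_lt ht.1
  have ht0 : t ∈ Ioo 0 T := ⟨by linarith, ht.2⟩
  have hTt : 0 < T - t := by linarith [ht.2]
  by_contra hcon
  push Not at hcon
  have h3 := hS.mean_lower hb ht0 h1.le
  have h4 : mI (fun p : ℝ × ℝ => u p.1 p.2) t ≤ 2 * Real.pi * |M| := by
    have h5 : mI (fun p : ℝ × ℝ => u p.1 p.2) t ≤ ∫ _ in (0)..(2 * Real.pi), |M| := by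
      refine intervalIntegral.integral_mono_on (by positivity)
        ((hS.sm.continuous_x ht0).intervalIntegrable _ _) intervalIntegrable_const ?_
      intro x _
      exact (le_abs_self _).trans ((hcon x).trans (le_abs_self M))
    have h6 : (∫ _ in (0)..(2 * Real.pi), |M|) = 2 * Real.pi * |M| := by simp
    linarith
  have h7 : K < (1 / 81) / (T - t) := by
    rw [lt_div_iff₀ hTt]
    have h8 : T - t < (1 / 81) / K := by linarith
    rw [lt_div_iff₀ hK] at h8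
    linarith
  linarith

lemma trichotomy (T : ℝ) (u : ℝ → ℝ → ℝ) (hT : 0 < T) (hu : IsSolutionOn 0 T u) (hblow : UnboundedNear T u) :
    (∀ t ∈ Ioo 0 T, ∀ x, u t x = 1 / (T - t)) ∨
      (FollowsPattern T u ∧ ∀ n : ℕ, 2 ≤ n → ∃ t ∈ Ioo 0 T, ∃ x, u t (x + 2 * Real.pi / n) ≠ u t x) ∨
      LosesRegularity T u := by
  by_cases hne : ∀ t ∈ Ioo 0 T, ∀ x, u t x = 1 / (T - t)
  · exact Or.inl hne
  refine Or.inr ?_
  have hS : Sol T (fun p : ℝ × ℝ => u p.1 p.2) := Pool.Agent.Lib.MPb879c5.WP.AsmM.toSol0 hu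
  have hb := toBlow hT hblow
  have hd : ∀ t ∈ Ioo 0 T, deriv (u t) = fun y => Dx (fun p : ℝ × ℝ => u p.1 p.2) (t, y) := by
    intro t ht; funext y; exact (hS.sm.hasDerivAt_x ht y).deriv
  have hg : ∀ t ∈ Ioo 0 T, halfSemi (deriv (u t))
      = Pool.Agent.Lib.MPb879c5.PR.Gag (fun x => Dx (fun p : ℝ × ℝ => u p.1 p.2) (t, x)) := by
    intro t ht; rw [hd t ht]; rfl
  have hn : Ioo 0 T ∈ 𝓝[<] T := Ioo_mem_nhdsLT hT
  obtain ⟨h1, h2, h3⟩ := Pool.Agent.Lib.MPb879c5.PR.final_all T _ hT hS hb hne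
  by_cases hbd : ∃ C, ∀ᶠ t in 𝓝[<] T, (T - t) ^ 2 * halfSemi (deriv (u t)) ≤ C
  · refine Or.inl ⟨?_, ?_⟩
    · obtain ⟨C, hC⟩ := hbd
      obtain ⟨a, ha1, ha2⟩ := h2 ⟨C, by filter_upwards [hC, hn] with t ht ht0; rw [← hg t ht0]; exact ht⟩
      refine ⟨a, ha1, fun η hη => ?_⟩
      filter_upwards [ha2 η hη, hn] with t ht ht0
      refine le_trans (le_of_eq ?_) ht
      refine intervalIntegral.integral_congr fun x _ => ?_
      show ((T - t) * deriv (u t) x - deriv (fun y => Real.cos ((y - a t) / 2) ^ 2) x) ^ 2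
        = ((T - t) * Dx (fun p : ℝ × ℝ => u p.1 p.2) (t, x) + Real.sin (x - a t) / 2) ^ 2
      rw [deriv_cosSq, hd t ht0]
      ring
    · intro n hn2
      by_contra hcon
      push Not at hcon
      obtain ⟨C, hC⟩ := hbd
      have h4 := ((h3 n hn2 hcon C).and_eventually hn).and_eventually hC
      obtain ⟨t, ⟨ht1, ht2⟩, ht3⟩ := h4.exists
      rw [hg t ht2] at ht3
      exact absurd ht3 (not_le.mpr ht1)
  · refine Or.inr ⟨?_, h1⟩
    intro C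
    by_contra hcon
    rw [not_frequently] at hcon
    exact hbd ⟨C, by filter_upwards [hcon] with t ht; exact not_lt.mp ht⟩

lemma exists_max (u₀ : ℝ → ℝ) (hsm : ContDiff ℝ ∞ u₀) (hper : ∀ x, u₀ (x + 2 * Real.pi) = u₀ x)
    (hne : ∃ x, u₀ x ≠ 0) (hint : 0 ≤ (∫ x in (0)..(2 * Real.pi), u₀ x)) :
    ∃ (T : ℝ) (u : ℝ → ℝ → ℝ) (δ : ℝ), 0 < δ ∧ IsSolutionOn (-δ) T u ∧ MaximalBlowUp T u₀ u ∧ UnboundedNear T u := by
  obtain ⟨T, hT, δ, hδ, u, hu, hu0, hunb, huniq⟩ :=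
    Pool.Agent.Lib.MPb879c5.WP.exists_maximal_all u₀ ⟨hsm, hper⟩ hint hne
  have hu' : IsSolutionOn 0 T u := Pool.Agent.Lib.MPb879c5.WP.AsmM.mono hu (by linarith) le_rfl
  exact ⟨T, u, δ, hδ, hu, ⟨hT, ⟨δ, hδ, hu⟩, hu0, blowsUpAt hT hu' hunb, huniq⟩, hunb⟩

/-- a solution which starts from a nonconstant function is not `1/(T-t)` -/
lemma not_flat {T δ : ℝ} {u₀ : ℝ → ℝ} {u : ℝ → ℝ → ℝ} (hT : 0 < T) (hδ : 0 < δ) (hu : IsSolutionOn (-δ) T u)
    (hu0 : ∀ x, u 0 x = u₀ x) (hnc : ¬ ∃ κ, ∀ x, u₀ x = κ) : ¬ ∀ t ∈ Ioo 0 T, ∀ x, u t x = 1 / (T - t) := by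
  intro h
  refine hnc ⟨1 / T, fun x => ?_⟩
  have hc : ContinuousAt (fun t => u t x) 0 := by
    have h1 : ContDiffAt ℝ ∞ (fun p : ℝ × ℝ => u p.1 p.2) (0, x) :=
      hu.1.contDiffAt ((isOpen_Ioo.prod isOpen_univ).mem_nhds ⟨⟨by linarith, hT⟩, mem_univ _⟩)
    have h2 : ContinuousAt (fun t : ℝ => ((t, x) : ℝ × ℝ)) 0 := by fun_prop
    have h3 : ContinuousAt (fun p : ℝ × ℝ => u p.1 p.2) ((fun t : ℝ => ((t, x) : ℝ × ℝ)) 0) := h1.continuousAt
    exact ContinuousAt.comp (f := fun t : ℝ => ((t, x) : ℝ × ℝ)) (x := (0 : ℝ)) h3 h2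
  have h3 : Tendsto (fun t => u t x) (𝓝[>] 0) (𝓝 (u 0 x)) := hc.tendsto.mono_left nhdsWithin_le_nhds
  have h4 : Tendsto (fun t => 1 / (T - t)) (𝓝[>] (0 : ℝ)) (𝓝 (1 / (T - 0))) := by
    have h5 : ContinuousAt (fun t : ℝ => 1 / (T - t)) 0 := by
      refine ContinuousAt.div continuousAt_const (by fun_prop) ?_
      rw [sub_zero]; exact hT.ne'
    exact h5.tendsto.mono_left nhdsWithin_le_nhds
  have h6 : Tendsto (fun t => u t x) (𝓝[>] 0) (𝓝 (1 / (T - 0))) := by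
    refine h4.congr' ?_
    filter_upwards [Ioo_mem_nhdsGT hT] with t ht
    exact (h t ht x).symm
  have h7 := tendsto_nhds_unique h3 h6
  rw [← hu0 x, h7, sub_zero]

/-- **Blow-up profiles.**

1. Let `T > 0` and let `u` be a classical `2π`-periodic solution of `u_t = u_xxx + (u_x)^2 + u^2` on `(0,T) × ℝ` which is
   unbounded near time `T`. Then `u(x,t) = 1/(T-t)` for all `(t,x)`, or `u` follows the pattern `cos²((x - a(t))/2)` for some
   `a(t)`, or `(T-t)^2 * halfSemi (u_x)` is unbounded and the limit inferior of `min_x (T-t) u` is at most `1/2`.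
2. If such a `u` has period `2π/n` in `x` for some `n ≥ 2` and is not constant in `x`, then the third case holds, and the uniform
   distance from `(T-t) u(·,t)` to the set of the functions `cos²((x - a)/2)` does not tend to `0`; if `n ≥ 100` then
   `|(T-t) u(x,t) - 1/2| ≤ 20/n` for all `t` close to `T` and all `x`.
3. Every smooth `2π`-periodic initial value `u₀ ≠ 0` with `∫ u₀ ≥ 0` has a unique maximal solution, which blows up at a finite time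
   `T` and has all periods of `u₀`.
4. For `T₀ > 0` and `η > 0` there is `ε > 0` such that for every smooth `2π`-periodic `u₀` with
   `∫ f² + ∫ (f_xxx)² < ε`, `f = u₀ - cos²(x/2)/T₀`, the maximal solution blows up at a finite time `T` with `|T - T₀| < η`, it
   is `η`-close to the exact solution `cos²((x-t)/2)/(T₀-t)` for `0 ≤ t ≤ T₀ - η`, and the second or the third case holds. -/
theorem result :
    (∀ (T : ℝ) (u : ℝ → ℝ → ℝ), 0 < T → IsSolutionOn 0 T u → UnboundedNear T u →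
      (∀ t ∈ Ioo 0 T, ∀ x, u t x = 1 / (T - t)) ∨ FollowsPattern T u ∨ LosesRegularity T u) ∧
    (∀ (n : ℕ) (T : ℝ) (u : ℝ → ℝ → ℝ), 2 ≤ n → 0 < T → IsSolutionOn 0 T u → UnboundedNear T u →
      (∀ t ∈ Ioo 0 T, ∀ x, u t (x + 2 * Real.pi / n) = u t x) → (∃ t ∈ Ioo 0 T, ∃ x y, u t x ≠ u t y) →
      LosesRegularity T u ∧
      (¬ ∀ η > 0, ∀ᶠ t in 𝓝[<] T, ∃ a, ∀ x, |(T - t) * u t x - Real.cos ((x - a) / 2) ^ 2| ≤ η) ∧
      (100 ≤ n → ∀ᶠ t in 𝓝[<] T, ∀ x, |(T - t) * u t x - 1 / 2| ≤ 20 / n)) ∧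
    (∀ u₀ : ℝ → ℝ, ContDiff ℝ ∞ u₀ → (∀ x, u₀ (x + 2 * Real.pi) = u₀ x) → (∃ x, u₀ x ≠ 0) →
      0 ≤ (∫ x in (0)..(2 * Real.pi), u₀ x) →
      ∃ (T : ℝ) (u : ℝ → ℝ → ℝ), MaximalBlowUp T u₀ u ∧
        ∀ h : ℝ, (∀ x, u₀ (x + h) = u₀ x) → ∀ t ∈ Ioo 0 T, ∀ x, u t (x + h) = u t x) ∧
    (∀ T₀ η : ℝ, 0 < T₀ → 0 < η → ∃ ε > 0, ∀ u₀ : ℝ → ℝ, ContDiff ℝ ∞ u₀ → (∀ x, u₀ (x + 2 * Real.pi) = u₀ x) →
      (∫ x in (0)..(2 * Real.pi), (u₀ x - Real.cos (x / 2) ^ 2 / T₀) ^ 2) +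
        (∫ x in (0)..(2 * Real.pi), iteratedDeriv 3 (fun y => u₀ y - Real.cos (y / 2) ^ 2 / T₀) x ^ 2) < ε →
      ∃ (T : ℝ) (u : ℝ → ℝ → ℝ), MaximalBlowUp T u₀ u ∧ |T - T₀| < η ∧
        (∀ t, 0 ≤ t → t ≤ T₀ - η → ∀ x, |u t x - Real.cos ((x - t) / 2) ^ 2 / (T₀ - t)| ≤ η) ∧
        (FollowsPattern T u ∨ LosesRegularity T u)) := by
  refine ⟨?_, ?_, ?_, ?_⟩
  · intro T u hT hu hblow
    rcases trichotomy T u hT hu hblow with h | h | h
    · exact Or.inl h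
    · exact Or.inr (Or.inl h.1)
    · exact Or.inr (Or.inr h)
  · intro n T u hn2 hT hu hunb hper hnc
    refine ⟨?_, Pool.Agent.Lib.MPb879c5.PR.specSYM n T (fun t x => (T - t) * u t x) hn2 hT
      (fun t ht x => by rw [hper t ht x]), fun hn => ?_⟩
    · rcases trichotomy T u hT hu hunb with h | h | h
      · obtain ⟨t, ht, x, y, hxy⟩ := hnc
        exact absurd ((h t ht x).trans (h t ht y).symm) hxy
      · obtain ⟨t, ht, x, hx⟩ := h.2 n hn2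
        exact absurd (hper t ht x) hx
      · exact h
    · exact Pool.Agent.Lib.MPb879c5.WH.hom_all n T (fun p : ℝ × ℝ => u p.1 p.2) hn hT
        (Pool.Agent.Lib.MPb879c5.WP.AsmM.toSol0 hu) (toBlow hT hunb) hper hnc
  · intro u₀ hsm hper2 hne hint
    obtain ⟨T, u, δ, hδ, hu, hmax, hunb⟩ := exists_max u₀ hsm hper2 hne hint
    refine ⟨T, u, hmax, fun h hper => ?_⟩
    obtain ⟨hT, -, hu0, -, -⟩ := hmax
    have hSol : Sol (T + δ) (fun p : ℝ × ℝ => u (p.1 + (-δ)) p.2) := by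
      have h1 := Pool.Agent.Lib.MPb879c5.WP.AsmM.shift (h := -δ) hu
      have e1 : -δ - -δ = 0 := by ring
      have e2 : T - -δ = T + δ := by ring
      rw [e1, e2] at h1
      exact Pool.Agent.Lib.MPb879c5.WP.AsmM.toSol0 h1
    intro t ht x
    have h1 := Pool.Agent.Lib.MPb879c5.WP.allPRD (T + δ) _ δ h hSol ⟨hδ, by linarith⟩
      (fun y => by
        show u (δ + -δ) (y + h) = u (δ + -δ) y
        have e1 : δ + -δ = 0 := by ring
        rw [e1, hu0, hu0, hper]) (t + δ) ⟨by linarith [ht.1], by linarith [ht.2]⟩ x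
    have h2 : u (t + δ + -δ) (x + h) = u (t + δ + -δ) x := h1
    have e1 : t + δ + -δ = t := by ring
    rwa [e1] at h2
  · intro T₀ η hT₀ hη
    obtain ⟨ε, hε, H⟩ := Pool.Agent.Lib.MPb879c5.WQ.near_pattern_all T₀ η hT₀ hη
    refine ⟨ε, hε, fun u₀ hsm hper2 he => ?_⟩
    have hfun : (fun x => u₀ x - Pool.Agent.Lib.MPb879c5.WQ.pat T₀ 0 x)
        = fun y => u₀ y - Real.cos (y / 2) ^ 2 / T₀ := by
      funext x
      unfold Pool.Agent.Lib.MPb879c5.WQ.pat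
      rw [sub_zero, sub_zero]
    have he' : Pool.Agent.Lib.MPb879c5.WQ.E2 (fun x => u₀ x - Pool.Agent.Lib.MPb879c5.WQ.pat T₀ 0 x) < ε := by
      rw [hfun]
      unfold Pool.Agent.Lib.MPb879c5.WQ.E2 Pool.Agent.Lib.MPb879c5.WP.En
      simp only [iteratedDeriv_zero]
      exact he
    obtain ⟨hint, hne, hnc, H'⟩ := H u₀ ⟨hsm, hper2⟩ he'
    obtain ⟨T, u, δ, hδ, hu, hmax, hunb⟩ := exists_max u₀ hsm hper2 hne hint
    have hT : 0 < T := hmax.1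
    have hu0 := hmax.2.2.1
    obtain ⟨h1, h2⟩ := H' T δ u hT hδ hu hu0 hunb
    have hu' : IsSolutionOn 0 T u := Pool.Agent.Lib.MPb879c5.WP.AsmM.mono hu (by linarith) le_rfl
    refine ⟨T, u, hmax, h1, h2, ?_⟩
    rcases trichotomy T u hT hu' hunb with h | h | h
    · exact absurd h (not_flat hT hδ hu hu0 hnc)
    · exact Or.inl h.1
    · exact Or.inr h

end Pool.Agent.Results.MP_b879c5_an.BlowUpProfiles
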