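import Mathlib
import Pool.Agent.Lib.MP_b879c5_an.Lin.All

/-!
MP_b879c5_an: linear asymptotic stability of the blow-up pattern `(T-t)⁻¹ cos² ((x-t)/2)`, for
every blow-up time `T`, modulo the two directions given by the symmetries (change of the blow-up
time and translation in space), with a rate and a uniform constant.
-/

set_option autoImplicit false

namespace Pool.Agent.Results.MP_b879c5_an.LinearStability

open Set
open scoped Topology ContDiff

/-- The blow-up pattern `U(x,t) = (T-t)⁻¹ cos² ((x-t)/2)`, an exact solution of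
`u_t = u_xxx + (u_x)^2 + u^2`. -/
noncomputable def profile (T t x : ℝ) : ℝ := Real.cos ((x - t) / 2) ^ 2 / (T - t)

/-- `v` (first argument time, second argument space) is a classical (smooth) real solution on
`(0,T) × ℝ`, `2π`-periodic in space, of `v_t = v_xxx + 2 U_x v_x + 2 U v`, the linearisation of
`u_t = u_xxx + (u_x)^2 + u^2` at `U = profile T`. -/
def IsLinearSolution (T : ℝ) (v : ℝ → ℝ → ℝ) : Prop :=
  ContDiffOn ℝ ∞ (fun p : ℝ × ℝ => v p.1 p.2) (Ioo 0 T ×ˢ univ) ∧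
  (∀ t ∈ Ioo 0 T, ∀ x, v t (x + 2 * Real.pi) = v t x) ∧
  (∀ t ∈ Ioo 0 T, ∀ x,
    deriv (fun s => v s x) t = iteratedDeriv 3 (v t) x
      + 2 * deriv (profile T t) x * deriv (v t) x + 2 * profile T t x * v t x)

/-- The `H⁶` norm of `v(·,t)` over one period. -/
noncomputable def H6norm (v : ℝ → ℝ → ℝ) (t : ℝ) : ℝ :=
  Real.sqrt (∫ x in (0)..(2 * Real.pi), ((v t x) ^ 2 + (iteratedDeriv 6 (v t) x) ^ 2))

/-- There is a universal constant `C > 0` such that for every `T > 0` and every smooth real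
`2π`-periodic solution `v` of the equation linearised at `U = (T-t)⁻¹ cos² ((x-t)/2)` there are
real numbers `α`, `β` such that for all `0 < t₀ ≤ t < T` and all `x`
`|(T-t) v(x,t) - α (T-t)⁻¹ cos² ((x-t)/2) - β sin (x-t)|`
`≤ C (1+T) (T-t₀) ‖v(t₀)‖_{H⁶} ((T-t)/(T-t₀))^{1/18}`. -/
theorem result : ∃ C : ℝ, 0 < C ∧ ∀ (T : ℝ) (v : ℝ → ℝ → ℝ), 0 < T → IsLinearSolution T v →
    ∃ α β : ℝ, ∀ t₀ ∈ Ioo 0 T, ∀ t ∈ Ico t₀ T, ∀ x,
      |(T - t) * v t x - α / (T - t) * Real.cos ((x - t) / 2) ^ 2 - β * Real.sin (x - t)| ≤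
        C * (1 + T) * (T - t₀) * H6norm v t₀ * ((T - t) / (T - t₀)) ^ (1 / 18 : ℝ) :=
  Pool.Agent.Lib.MPb879.Lin.main

end Pool.Agent.Results.MP_b879c5_an.LinearStability
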