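import Mathlib
import Pool.Agent.Lib.MP_b879c5_an.BlowUp

/-!
MP_b879c5_an: the sharp upper bound on the rescaled orbit, for every solution. The rescaled
orbit `w = (T - t) u` is bounded in `H¹` by a universal constant and satisfies
`-o(1) ≤ w ≤ 1 + o(1)` as `t → T`, with universal rates.
-/

set_option autoImplicit false

namespace Pool.Agent.Results.MP_b879c5_an.SharpOrbitBound

open Set MeasureTheory Pool.Agent.Lib.MP_b879c5_an
open scoped Topology ContDiff

/-- `u` (first argument time, second argument space) is a classical (smooth) real solution on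
`(0,T) × ℝ`, `2π`-periodic in space, of `u_t = u_xxx + (u_x)^2 + u^2`. -/
def IsClassicalSolution (T : ℝ) (u : ℝ → ℝ → ℝ) : Prop :=
  ContDiffOn ℝ ∞ (fun p : ℝ × ℝ => u p.1 p.2) (Ioo 0 T ×ˢ univ) ∧
  (∀ t ∈ Ioo 0 T, ∀ x, u t (x + 2 * Real.pi) = u t x) ∧
  (∀ t ∈ Ioo 0 T, ∀ x,
    deriv (fun s => u s x) t = iteratedDeriv 3 (u t) x + (deriv (u t) x) ^ 2 + (u t x) ^ 2)

/-- The `H¹` norm of `u(·,t)` over one period. -/
noncomputable def H1norm (u : ℝ → ℝ → ℝ) (t : ℝ) : ℝ :=
  Real.sqrt (∫ x in (0)..(2 * Real.pi), ((u t x) ^ 2 + (deriv (u t) x) ^ 2))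

lemma toSol {T : ℝ} {u : ℝ → ℝ → ℝ} (h : IsClassicalSolution T u) :
    Sol T (fun p : ℝ × ℝ => u p.1 p.2) := by
  obtain ⟨hsm, hper, hpde⟩ := h
  have hS : Sm T (fun p : ℝ × ℝ => u p.1 p.2) := hsm
  refine ⟨hS, hper, ?_⟩
  intro t ht x
  have h1 : deriv (u t) = fun y => Dx (fun p : ℝ × ℝ => u p.1 p.2) (t, y) := by
    funext y; exact (hS.hasDerivAt_x ht y).deriv
  have h2 : deriv (deriv (u t)) = fun y => Dx (Dx (fun p : ℝ × ℝ => u p.1 p.2)) (t, y) := by
    rw [h1]; funext y; exact (hS.dx.hasDerivAt_x ht y).deriv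
  have h3 : deriv (deriv (deriv (u t)))
      = fun y => Dx (Dx (Dx (fun p : ℝ × ℝ => u p.1 p.2))) (t, y) := by
    rw [h2]; funext y; exact (hS.dx.dx.hasDerivAt_x ht y).deriv
  have h4 := hpde t ht x
  have h5 : deriv (fun s => u s x) t = Dt (fun p : ℝ × ℝ => u p.1 p.2) (t, x) :=
    (hS.hasDerivAt_t ht x).deriv
  have h6 : iteratedDeriv 3 (u t) = deriv (deriv (deriv (u t))) := by
    rw [iteratedDeriv_succ, iteratedDeriv_succ, iteratedDeriv_one]
  rw [h5, h6, h3, h1] at h4
  exact h4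

lemma H1norm_eq {T : ℝ} {u : ℝ → ℝ → ℝ} (h : IsClassicalSolution T u) {t : ℝ}
    (ht : t ∈ Ioo 0 T) : H1norm u t = Real.sqrt (II (fun p : ℝ × ℝ => u p.1 p.2) t
      + JI (fun p : ℝ × ℝ => u p.1 p.2) t) := by
  have hS := toSol h
  have h1 : deriv (u t) = fun y => Dx (fun p : ℝ × ℝ => u p.1 p.2) (t, y) := by
    funext y; exact (hS.sm.hasDerivAt_x ht y).deriv
  have hc0 := hS.sm.continuous_x ht
  have hc1 := hS.sm.dx.continuous_x ht
  have i1 : IntervalIntegrable (fun x => (Dx (fun p : ℝ × ℝ => u p.1 p.2) (t, x)) ^ 2)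
      volume 0 (2 * Real.pi) := (hc1.pow 2).intervalIntegrable _ _
  have i0 : IntervalIntegrable (fun x => (u t x) ^ 2) volume 0 (2 * Real.pi) :=
    (hc0.pow 2).intervalIntegrable _ _
  unfold H1norm II JI
  rw [h1, intervalIntegral.integral_add i0 i1, add_comm]


/-- There is a universal constant `C > 0` such that for every `T > 0` and every classical
`2π`-periodic solution `u` of `u_t = u_xxx + (u_x)^2 + u^2` on `(0,T) × ℝ`:

* the `H¹` norm and the sup norm of `u(·,t)` are at most `C (1/t + 1/(T-t))` for `t ∈ (0,T)`;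
* for `t ∈ [T/2, T)` the rescaled solution `(T-t) u` is at most `1 + C (T-t)^(1/7)` and at least
  `-C ((T-t)/T + ((T-t) (1 + log (T/(T-t))))^(1/7))`. -/
theorem result : ∃ C : ℝ, 0 < C ∧
    ∀ (T : ℝ) (u : ℝ → ℝ → ℝ), 0 < T → IsClassicalSolution T u →
      (∀ t ∈ Ioo 0 T, H1norm u t ≤ C * (1 / t + 1 / (T - t)) ∧
        ∀ x, |u t x| ≤ C * (1 / t + 1 / (T - t))) ∧
      (∀ t ∈ Ico (T / 2) T, ∀ x,
        (T - t) * u t x ≤ 1 + C * (T - t) ^ (1 / 7 : ℝ) ∧
        -(C * ((T - t) / T + ((T - t) * (1 + Real.log (T / (T - t)))) ^ (1 / 7 : ℝ))) ≤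
          (T - t) * u t x) := by
  have hC2 := C2_pos
  have hC4 := C4_pos
  have hC3 : 0 ≤ C3 := Real.sqrt_nonneg _
  refine ⟨C2 + C3 + C4, by linarith, ?_⟩
  intro T u hT hu
  have hS := toSol hu
  refine ⟨?_, ?_⟩
  · intro t ht
    have ht0 : 0 < t := ht.1
    have hTt : 0 < T - t := by linarith [ht.2]
    set d := min t (T - t) with hd
    have hd0 : 0 < d := lt_min ht0 hTt
    have hdt : d ≤ t := min_le_left _ _
    have hdT : d ≤ T - t := min_le_right _ _
    have hinv : 1 / d ≤ 1 / t + 1 / (T - t) := by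
      rcases min_choice t (T - t) with hm | hm
      · rw [hd, hm]; have : 0 < 1 / (T - t) := by positivity
        linarith
      · rw [hd, hm]; have : 0 < 1 / t := by positivity
        linarith
    have hpos : 0 < 1 / d := by positivity
    constructor
    · rw [H1norm_eq hu ht]
      refine (hS.sqrt_le ht hd0 hdt hdT).trans ?_
      calc C3 / d = C3 * (1 / d) := by ring
        _ ≤ (C2 + C3 + C4) * (1 / t + 1 / (T - t)) := by
          apply mul_le_mul (by linarith) hinv hpos.le (by linarith)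
    · intro x
      refine (hS.abs_le' ht hd0 hdt hdT x).trans ?_
      calc C2 / d = C2 * (1 / d) := by ring
        _ ≤ (C2 + C3 + C4) * (1 / t + 1 / (T - t)) := by
          apply mul_le_mul (by linarith) hinv hpos.le (by linarith)
  · intro t ht x
    have ht' : t ∈ Ioo 0 T := ⟨by linarith [ht.1], ht.2⟩
    have hTt : 0 < T - t := by linarith [ht.2]
    constructor
    · refine (hS.sharp_upper ht' ht.1 x).trans ?_
      have : 0 ≤ (T - t) ^ (1 / 7 : ℝ) := Real.rpow_nonneg hTt.le _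
      have := mul_nonneg (by linarith : 0 ≤ C2 + C3) this
      linarith
    · refine le_trans ?_ (hS.sharp_lower ht' ht.1 x)
      have h1 : 0 ≤ (T - t) / T + ((T - t) * (1 + Real.log (T / (T - t)))) ^ (1 / 7 : ℝ) := by
        apply add_nonneg (by positivity)
        apply Real.rpow_nonneg
        apply mul_nonneg hTt.le
        have : 0 ≤ Real.log (T / (T - t)) := by
          apply Real.log_nonneg
          rw [le_div_iff₀ hTt]
          linarith [ht'.1]
        linarith
      have := mul_nonneg (by linarith : 0 ≤ C2 + C3) h1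
      linarith

end Pool.Agent.Results.MP_b879c5_an.SharpOrbitBound
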